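import Pool.Agent.H509.ST.Stm
import Pool.Agent.H509.Exp2

/-!
# Project ST (helper509, MP_dd9835_nt), brick ZERO (helper115)

If two places of `S` are totally split and `S` has at least three elements, the derivatives of the
partial zeta functions at `s = 0` are zero.
-/

set_option autoImplicit false
set_option linter.unusedSectionVars false

open NumberField IsDedekindDomain Filter Topology

noncomputable section

namespace Pool.Agent.H115.ST

open Pool.Agent.K3h30.RS (Fixes Above IsFrob)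
open Pool.Agent.K3h56.E2 (Quad Dict loc SplAt splAt_inl splAt_inr exists_over squarefree_mid)
open Pool.Agent.N598.ST (IsArtin IsZeta TotallySplit Unram Place)
open Pool.Agent.STk (S_EUL S_SPL S_UNR S_ZERO)

/-- A function with a zero of order at least two at `0`. -/
theorem deriv_zero {L : ℂ → ℂ} (hL : DifferentiableOn ℂ L {1}ᶜ) {n : ℕ} (hn : 2 ≤ n) {q : ℂ}
    (h : Tendsto (fun s : ℂ => (s ^ n)⁻¹ * L s) (𝓝[≠] 0) (𝓝 q)) : deriv L 0 = 0 := by
  have hd : DifferentiableAt ℂ L 0 :=
    hL.differentiableAt (isOpen_compl_singleton.mem_nhds (by simp))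
  have hp : ∀ k : ℕ, k ≠ 0 → Tendsto (fun s : ℂ => s ^ k) (𝓝[≠] 0) (𝓝 0) := by
    intro k hk
    have h2 : Tendsto (fun s : ℂ => s ^ k) (𝓝 0) (𝓝 (0 ^ k)) := (continuous_pow _).tendsto _
    rw [zero_pow hk] at h2
    exact h2.mono_left nhdsWithin_le_nhds
  have h0 : Tendsto L (𝓝[≠] 0) (𝓝 0) := by
    have h2 := (hp n (by omega)).mul h
    rw [zero_mul] at h2
    refine h2.congr' ?_
    filter_upwards [self_mem_nhdsWithin] with s hs
    have hs0 : s ≠ 0 := hs
    field_simp
  have hL0 : L 0 = 0 :=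
    tendsto_nhds_unique (hd.continuousAt.tendsto.mono_left nhdsWithin_le_nhds) h0
  have h3 := hd.hasDerivAt.tendsto_slope_zero
  have h4 : Tendsto (fun t : ℂ => t⁻¹ • (L (0 + t) - L 0)) (𝓝[≠] 0) (𝓝 0) := by
    have h2 := (hp (n - 1) (by omega)).mul h
    rw [zero_mul] at h2
    refine h2.congr' ?_
    filter_upwards [self_mem_nhdsWithin] with s hs
    have hs0 : s ≠ 0 := hs
    have h5 : s ^ n = s ^ (n - 1) * s := by
      rw [← pow_succ]
      congr 1
      omega
    rw [hL0, sub_zero, zero_add, smul_eq_mul, h5]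
    field_simp
  exact tendsto_nhds_unique h3 h4

/-- Orthogonality of the characters. -/
theorem orth {G : Type} [CommGroup G] [Fintype G] (f : G → ℂ)
    (h : ∀ χ : G →* ℂˣ, ∑ g, ((χ g : ℂˣ) : ℂ) * f g = 0) (g0 : G) : f g0 = 0 := by
  classical
  have hfin : Finite (G →* ℂˣ) :=
    Finite.of_equiv _ (CommGroup.monoidHom_mulEquiv_of_hasEnoughRootsOfUnity G ℂ).some.symm.toEquiv
  let _ : Fintype (G →* ℂˣ) := Fintype.ofFinite _
  have hsum : ∀ x : G, x ≠ 1 → ∑ χ : G →* ℂˣ, ((χ x : ℂˣ) : ℂ) = 0 := by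
    intro x hx
    obtain ⟨φ, hφ⟩ := CommGroup.exists_apply_ne_one_of_hasEnoughRootsOfUnity G ℂ hx
    have h1 : ∑ χ : G →* ℂˣ, ((χ x : ℂˣ) : ℂ) =
        ((φ x : ℂˣ) : ℂ) * ∑ χ : G →* ℂˣ, ((χ x : ℂˣ) : ℂ) := by
      rw [Finset.mul_sum]
      refine (Fintype.sum_equiv (Equiv.mulLeft φ) _ _ fun χ => ?_).symm
      rw [Equiv.coe_mulLeft, MonoidHom.mul_apply, Units.val_mul]
    have h2 : (1 - ((φ x : ℂˣ) : ℂ)) * ∑ χ : G →* ℂˣ, ((χ x : ℂˣ) : ℂ) = 0 := by
      linear_combination h1
    rcases mul_eq_zero.1 h2 with h3 | h3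
    · exfalso
      apply hφ
      apply Units.ext
      rw [Units.val_one]
      linear_combination -h3
    · exact h3
  have h1 : ∑ χ : G →* ℂˣ, ((χ g0⁻¹ : ℂˣ) : ℂ) * ∑ g, ((χ g : ℂˣ) : ℂ) * f g =
      (Fintype.card (G →* ℂˣ) : ℂ) * f g0 := by
    have e1 : ∀ χ : G →* ℂˣ, ((χ g0⁻¹ : ℂˣ) : ℂ) * ∑ g, ((χ g : ℂˣ) : ℂ) * f g =
        ∑ g, ((χ (g0⁻¹ * g) : ℂˣ) : ℂ) * f g := by
      intro χ
      rw [Finset.mul_sum]
      refine Finset.sum_congr rfl fun g _ => ?_
      rw [map_mul, Units.val_mul]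
      ring
    rw [Finset.sum_congr rfl fun χ _ => e1 χ, Finset.sum_comm, Finset.sum_eq_single g0]
    · have e2 : ∀ χ : G →* ℂˣ, ((χ (g0⁻¹ * g0) : ℂˣ) : ℂ) * f g0 = f g0 := by
        intro χ
        rw [inv_mul_cancel, map_one, Units.val_one, one_mul]
      rw [Finset.sum_congr rfl fun χ _ => e2 χ, Finset.sum_const, Finset.card_univ, nsmul_eq_mul]
    · intro g _ hg
      rw [← Finset.sum_mul, hsum (g0⁻¹ * g) (by
        intro h2
        exact hg (inv_mul_eq_one.1 h2).symm), zero_mul]
    · intro h2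
      exact absurd (Finset.mem_univ _) h2
  have h2 : (Fintype.card (G →* ℂˣ) : ℂ) * f g0 = 0 := by
    rw [← h1]
    refine Finset.sum_eq_zero fun χ _ => ?_
    rw [h χ, mul_zero]
  rcases mul_eq_zero.1 h2 with h3 | h3
  · exfalso
    have h4 : Fintype.card (G →* ℂˣ) ≠ 0 := Fintype.card_ne_zero
    exact h4 (by exact_mod_cast h3)
  · exact h3

theorem over_iff {K H : Type} [Field K] [NumberField K] [Field H] [NumberField H] [Algebra K H]
    {w : HeightOneSpectrum (𝓞 H)} {v : HeightOneSpectrum (𝓞 K)} :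
    Above {v} w ↔ w.asIdeal.LiesOver v.asIdeal := by
  rw [Pool.Agent.K3h30.RS.above_singleton]
  constructor
  · intro h
    exact ⟨h.symm⟩
  · intro h
    exact h.over.symm

/-- The Artin symbol is a Frobenius automorphism. -/
theorem isFrob {K H G : Type} [Field K] [NumberField K] [Field H] [NumberField H] [Algebra K H]
    [CommGroup G] [Finite G] [MulSemiringAction G H] [IsGaloisGroup G K H] (e : Gal(H/K) ≃* G)
    (he : ∀ (g : Gal(H/K)) (x : H), e g • x = g x) {S : Finset (Place K)}
    {a : Ideal (𝓞 K) → Gal(H/K)} (ha : IsArtin S a) (v : HeightOneSpectrum (𝓞 K))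
    (hv : Sum.inr v ∉ S) : IsFrob (H := H) v (e (a v.asIdeal)) := by
  intro w hw x
  rw [he]
  have hgx : IsIntegral ℤ (a v.asIdeal (x : H)) := x.2.map (a v.asIdeal)
  have h1 := ha.frob v hv w (over_iff.1 hw) x
    (⟨a v.asIdeal (x : H), hgx⟩ - x ^ Ideal.absNorm v.asIdeal) rfl
  have h2 := (HeightOneSpectrum.valuation_lt_one_iff_mem (K := H) w
    (⟨a v.asIdeal (x : H), hgx⟩ - x ^ Ideal.absNorm v.asIdeal)).2 h1
  exact h2

/-- **Brick ZERO.** -/
theorem zero : S_ZERO := by
  classical
  intro hEul hSpl hUnr K H G _ _ _ _ _ _ _ _ _ e he hG S hinf hram hcard p hp q hq hpq hps hqs a ha Z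
    hZ g0
  have hgal : IsGalois K H := IsGaloisGroup.isGalois G K H
  let _ : Fintype G := Fintype.ofFinite G
  have hZ0 := Pool.Agent.H509.Z0.t_ZETA0X
  have hZP := Pool.Agent.H509.E2.zprod
  have hLim := Pool.Agent.K3h11.E2.t_LIMX
  have hLim1 := Pool.Agent.K3h66.E2.t_LIM1X
  have hLoc := Pool.Agent.K3h25.E2.t_LOC
  have hDict := Pool.Agent.K3h41.E2.t_DICT
  have hFrob := Pool.Agent.K3h72.E2.t_FROB hLoc
  have hFw := Pool.Agent.K3h72.E2.t_FINW hLoc
  have hIw := Pool.Agent.K3h50.E2.t_INFW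
  have hCount := Pool.Agent.K3h50.E2.t_COUNT
  -- the number of the places
  have hScard : S.card = Fintype.card (InfinitePlace K) + S.toRight.card := by
    have h1 : S = (Finset.univ : Finset (InfinitePlace K)).disjSum S.toRight := by
      ext x
      rcases x with v | v
      · rw [Finset.inl_mem_disjSum]
        exact ⟨fun _ => Finset.mem_univ v, fun _ => hinf v⟩
      · rw [Finset.inr_mem_disjSum, Finset.mem_toRight]
    conv_lhs => rw [h1]
    rw [Finset.card_disjSum, Finset.card_univ]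
  -- the L-functions
  have hLd : ∀ χ : G →* ℂˣ, DifferentiableOn ℂ
      (fun s : ℂ => ∑ g : Gal(H/K), ((χ (e g) : ℂˣ) : ℂ) * Z g s) {1}ᶜ := by
    intro χ
    exact DifferentiableOn.fun_sum fun g _ => (hZ g).hol.const_mul _
  have hLz : ∀ χ : G →* ℂˣ,
      deriv (fun s : ℂ => ∑ g : Gal(H/K), ((χ (e g) : ℂˣ) : ℂ) * Z g s) 0 = 0 := by
    intro χ
    have hE := hEul K H G e S a ha Z hZ χ
    by_cases hχ : χ = 1
    · -- the trivial character
      subst hχ
      obtain ⟨q1, hq1, -⟩ := hLim1 hZ0 K S.toRight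
        (fun s : ℂ => ∑ g : Gal(H/K), (((1 : G →* ℂˣ) (e g) : ℂˣ) : ℂ) * Z g s) (hLd 1)
        (fun s hs => by
          have h1 := hE s hs
          simpa using h1)
      exact deriv_zero (hLd 1) (by omega) hq1
    · -- the nontrivial characters
      have hsq : ∀ g : G, χ g * χ g = 1 := fun g => by rw [← map_mul, hG, map_one]
      have hex : ∃ g : G, χ g ≠ 1 := by
        by_contra hcon
        push Not at hcon
        exact hχ (MonoidHom.ext hcon)
      obtain ⟨E, _, _, _, _, τ, hd⟩ := hDict K H G χ hsq hex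
      have htw : IsScalarTower K E H := hd.tower
      obtain ⟨A0, hA0, hA0c⟩ := exists_over hLoc hd.quad S.toRight
      -- the infinite places
      have hA : Fintype.card {v : InfinitePlace K // SplAt H χ (Sum.inl v)} +
          Fintype.card (InfinitePlace K) = Fintype.card (InfinitePlace E) := by
        rw [← hCount K E τ hd.quad, Nat.card_eq_fintype_card]
        congr 1
        exact Fintype.card_congr (Equiv.subtypeEquivRight fun v => splAt_inl hIw hd v)
      set B : Finset (HeightOneSpectrum (𝓞 K)) := S.toRight.filter fun v => loc E v = 1 with hBdef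
      set A : Finset (InfinitePlace K) := Finset.univ.filter fun v => SplAt H χ (Sum.inl v)
        with hAdef
      have hAcard : A.card + Fintype.card (InfinitePlace K) = Fintype.card (InfinitePlace E) := by
        rw [← hA, hAdef, Fintype.card_subtype]
      set P : Finset (InfinitePlace K ⊕ HeightOneSpectrum (𝓞 K)) := A.disjSum B with hPdef
      have hPcard : P.card = A.card + B.card := Finset.card_disjSum _ _
      -- the totally split places belong to `P`
      have hPmem : ∀ x : Place K, x ∈ S → TotallySplit K H x → x ∈ P := by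
        intro x hx hxs
        have h1 := (hSpl K H G x).1 hxs
        rcases x with v | v
        · rw [hPdef, Finset.inl_mem_disjSum, hAdef, Finset.mem_filter]
          refine ⟨Finset.mem_univ v, fun w hw γ hγ => ?_⟩
          rw [h1 (Sum.inl w) hw γ hγ, map_one]
        · rw [hPdef, Finset.inr_mem_disjSum, hBdef, Finset.mem_filter]
          refine ⟨Finset.mem_toRight.2 hx, (splAt_inr hFw hd v).1 fun w hw γ hγ => ?_⟩
          rw [h1 (Sum.inr w) (over_iff.1 hw) γ hγ, map_one]
      have hP2 : 2 ≤ P.card := by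
        have h1 : ({p, q} : Finset (InfinitePlace K ⊕ HeightOneSpectrum (𝓞 K))) ⊆ P := by
          intro x hx
          rw [Finset.mem_insert, Finset.mem_singleton] at hx
          rcases hx with rfl | rfl
          · exact hPmem _ hp hps
          · exact hPmem _ hq hqs
        have h2 := Finset.card_le_card h1
        rwa [Finset.card_pair hpq] at h2
      -- the Euler product
      have heuler : ∀ s : ℂ, 1 < s.re →
          HasProd (fun v : {v : HeightOneSpectrum (𝓞 K) // v ∉ S.toRight} =>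
            (1 - ((loc E (v : HeightOneSpectrum (𝓞 K)) : ℤ) : ℂ) *
              (Ideal.absNorm (v : HeightOneSpectrum (𝓞 K)).asIdeal : ℂ) ^ (-s))⁻¹)
            (∑ g : Gal(H/K), ((χ (e g) : ℂˣ) : ℂ) * Z g s) := by
        intro s hs
        have h1 := hE s hs
        have h2 : ∀ v : {v : HeightOneSpectrum (𝓞 K) // v ∉ S.toRight},
            ((χ (e (a (v : HeightOneSpectrum (𝓞 K)).asIdeal)) : ℂˣ) : ℂ) =
              ((loc E (v : HeightOneSpectrum (𝓞 K)) : ℤ) : ℂ) := fun v => by
          have hv : Sum.inr (v : HeightOneSpectrum (𝓞 K)) ∉ S := fun h =>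
            v.2 (Finset.mem_toRight.2 h)
          exact (hFrob K H G E τ χ hd v _ ((hUnr K H v).1 (hram v hv))
            (isFrob e he ha v hv)).symm
        simp only [h2] at h1
        exact h1
      obtain ⟨-, q1, hq1, -⟩ := hLim hZ0 hZP hLoc K E τ hd.quad S.toRight A0 hA0
        (fun s : ℂ => ∑ g : Gal(H/K), ((χ (e g) : ℂˣ) : ℂ) * Z g s) (hLd χ) heuler (by omega)
      exact deriv_zero (hLd χ) (by omega) hq1
  -- orthogonality
  have hZd : ∀ g, DifferentiableAt ℂ (Z g) 0 := fun g =>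
    (hZ g).hol.differentiableAt (isOpen_compl_singleton.mem_nhds (by simp))
  have h1 := orth (fun g : G => deriv (Z (e.symm g)) 0) (fun χ => by
    refine Eq.trans ?_ (hLz χ)
    rw [deriv_fun_sum fun g _ => (hZd g).const_mul _]
    refine Fintype.sum_equiv e.symm.toEquiv _ _ fun g => ?_
    rw [deriv_const_mul_field]
    simp) (e g0)
  simpa using h1

end Pool.Agent.H115.ST
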